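import Pool.Agent.W37.SG.Stm

/-!
SG-LAB: the label modules of a tree group are the `U n`.
-/

namespace Pool.Agent.W563.SG.Lab

open Pool.Agent.W37.SG

/-- The label of a triangular permutation depends only on the lower coordinates. -/
theorem label_dep {p : ℕ} {g : Pm p} (hg : IsTri p g) {j : ℕ} {f : Fn p}
    (hf : ∀ x, g x j = x j + f x) (x y : ℕ → ZMod p) (h : ∀ i < j, x i = y i) : f x = f y := by
  have h1 := hg j x y h
  rw [hf x, hf y] at h1
  simpa using h1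

/-- The set of labels at level `j`. -/
def lab (p : ℕ) (Q : Subgroup (Pm p)) (j : ℕ) : Set (Fn p) :=
  {f | ∃ g ∈ Q, IsKer p j g ∧ ∀ x, g x j = x j + f x}

theorem lab_zero (p : ℕ) (Q : Subgroup (Pm p)) (j : ℕ) : (0 : Fn p) ∈ lab p Q j := by
  refine ⟨1, Q.one_mem, fun x i _ => rfl, fun x => ?_⟩
  simp

theorem lab_add {p : ℕ} {Q : Subgroup (Pm p)} (hQ : ∀ g ∈ Q, IsTri p g) {j : ℕ} {f f' : Fn p}
    (hf : f ∈ lab p Q j) (hf' : f' ∈ lab p Q j) : f + f' ∈ lab p Q j := by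
  obtain ⟨g, hg, hk, hl⟩ := hf
  obtain ⟨g', hg', hk', hl'⟩ := hf'
  refine ⟨g * g', Q.mul_mem hg hg', fun x i hi => ?_, fun x => ?_⟩
  · rw [Equiv.Perm.mul_apply, hk _ i hi, hk' _ i hi]
  · rw [Equiv.Perm.mul_apply, hl, hl', label_dep (hQ g hg) hl (g' x) x (fun i hi => hk' x i hi),
      Pi.add_apply]
    ring

theorem lab_nsmul {p : ℕ} {Q : Subgroup (Pm p)} (hQ : ∀ g ∈ Q, IsTri p g) {j : ℕ} {f : Fn p}
    (hf : f ∈ lab p Q j) (n : ℕ) : n • f ∈ lab p Q j := by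
  induction n with
  | zero => rw [zero_smul]; exact lab_zero p Q j
  | succ n ih => rw [succ_nsmul]; exact lab_add hQ ih hf

/-- The labels at level `j` form a submodule. -/
def labM (p : ℕ) [Fact p.Prime] (Q : Subgroup (Pm p)) (hQ : ∀ g ∈ Q, IsTri p g) (j : ℕ) :
    Submodule (ZMod p) (Fn p) where
  carrier := lab p Q j
  zero_mem' := lab_zero p Q j
  add_mem' := fun h h' => lab_add hQ h h'
  smul_mem' := by
    intro c f hf
    have h1 : c • f = c.val • f := by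
      funext x
      rw [Pi.smul_apply, Pi.smul_apply, nsmul_eq_mul, ZMod.natCast_zmod_val, smul_eq_mul]
    rw [h1]
    exact lab_nsmul hQ hf _

theorem lab_conj {p : ℕ} [Fact p.Prime] (h4 : S_D4) {Q : Subgroup (Pm p)}
    (hQ : ∀ g ∈ Q, IsTri p g) {j : ℕ} {f : Fn p} (hf : f ∈ lab p Q j) {h : Pm p} (hh : h ∈ Q) :
    (fun x => f (h x)) ∈ lab p Q j := by
  obtain ⟨g, hg, hk, hl⟩ := hf
  have hti : IsTri p h⁻¹ := (h4 p h h (hQ h hh) (hQ h hh)).2.1
  have key : ∀ x i, (∀ l < i, g (h x) l = h x l) →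
      (h⁻¹ * g * h) x i = g (h x) i + (x i - h x i) := by
    intro x i hi
    have h1 := hti i (g (h x)) (h x) hi
    have h2 : h⁻¹ (h x) = x := by
      rw [← Equiv.Perm.mul_apply, inv_mul_cancel, Equiv.Perm.one_apply]
    rw [h2] at h1
    rw [Equiv.Perm.mul_apply, Equiv.Perm.mul_apply, ← h1]
    ring
  refine ⟨h⁻¹ * g * h, Q.mul_mem (Q.mul_mem (Q.inv_mem hh) hg) hh, fun x i hi => ?_,
    fun x => ?_⟩
  · rw [key x i (fun l hl' => hk _ l (lt_trans hl' hi)), hk _ i hi]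
    ring
  · rw [key x j (fun l hl' => hk _ l hl'), hl]
    ring

/-- SG-LAB -/
theorem main : Pool.Agent.W37.SG.S_LAB := by
  intro h1 h2 h3 h4 h5 p _ Q hQ ht
  have key : ∀ j : ℕ, ∃ n ≤ p ^ j, labM p Q hQ j = U p n := by
    intro j
    refine h5 h1 h2 p j Q hQ (fun v _ => ht v) (labM p Q hQ j) ?_ ?_
    · intro f hf
      obtain ⟨g, hg, hk, hl⟩ := hf
      exact (h3 p j f).2 (fun x y hxy => label_dep (hQ g hg) hl x y hxy)
    · intro g hg f hf
      exact lab_conj h4 hQ hf hg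
  choose a ha1 ha2 using key
  refine ⟨a, fun j f => ?_, ha1⟩
  rw [← ha2 j]
  exact Iff.rfl

end Pool.Agent.W563.SG.Lab
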